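import Pool.Agent.K3h35.FlipMain

/-!
# A sublinear number of Steiner points does not make the flip distance linear

The negated form of the question: for every `k(n) = o(n)` and every constant `C` there is a simple
polygon with `n` vertices (with `n` as large as one likes) and two triangulations of it such that,
however at most `k(n)` Steiner points are inserted into both, the flip distance of the two resulting
triangulations is larger than `C n`.  All definitions are in `Pool.Agent.K3h35.FlipDefs`.
-/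

set_option autoImplicit false

namespace Pool.Agent.Results.MP_fe41f2_co.LinearlyManySteinerPoints

open Set Filter Asymptotics Pool.Agent.K3h35.Flip

theorem result (k : ℕ → ℕ) (hk : (fun n => (k n : ℝ)) =o[atTop] (fun n : ℕ => (n : ℝ)))
    (C : ℝ) (n₀ : ℕ) :
    ∃ (n : ℕ) (v : Fin n → Pt) (T₁ T₂ : Finset (Finset Pt)), n₀ ≤ n ∧
      IsSimplePolygon v ∧
      IsTriangulation (region v) (range v) T₁ ∧ IsTriangulation (region v) (range v) T₂ ∧
      EdgeToEdge (range v) T₁ ∧ EdgeToEdge (range v) T₂ ∧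
      ∀ (ps : List Pt) (T₁' T₂' : Finset (Finset Pt)), ps.length ≤ k n →
        InsertPoints T₁ ps T₁' → InsertPoints T₂ ps T₂' →
        ∀ L : ℕ, FlipPath (region v) (range v ∪ {p | p ∈ ps}) L T₁' T₂' → C * n < L := by
  -- the size of a piece
  let M : ℕ := ⌈24 * |C|⌉₊ + 1
  have hM : 0 < M := Nat.succ_pos _
  have hMC : 24 * |C| < M := by
    have := Nat.le_ceil (24 * |C|)
    simp only [M]; push_cast; linarith
  have hM1 : (1 : ℝ) ≤ M := by exact_mod_cast hM
  have hε : (0 : ℝ) < 1 / (8 * ((M : ℝ) + 2)) := by positivity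
  obtain ⟨n₁, hn₁⟩ := eventually_atTop.1 (hk.def hε)
  -- the number of pieces
  let N : ℕ := max n₀ n₁ + 1
  have hN : 0 < N := Nat.succ_pos _
  have hN1 : (1 : ℝ) ≤ N := by exact_mod_cast hN
  have hn : N ≤ 2 * (N * (M + 2)) + 2 := by nlinarith
  obtain ⟨T₁, T₂, h1, h2, h3, h4, h5, h6⟩ := main_lower hM hN
  refine ⟨2 * (N * (M + 2)) + 2, _, T₁, T₂, ?_, h1, h2, h3, h4, h5, ?_⟩
  · have : n₀ ≤ N := by simp only [N]; omega
    omega
  · intro ps T₁' T₂' hps i1 i2 L hL
    have h7 := h6 ps T₁' T₂' i1 i2 L hL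
    have h8 := hn₁ (2 * (N * (M + 2)) + 2) (by simp only [N] at hn ⊢; omega)
    rw [Real.norm_of_nonneg (Nat.cast_nonneg _), Real.norm_of_nonneg (Nat.cast_nonneg _)] at h8
    have h9 : (ps.length : ℝ) ≤ k (2 * (N * (M + 2)) + 2) := by exact_mod_cast hps
    push_cast at h8 ⊢
    have hprod : (1 : ℝ) ≤ (N : ℝ) * (M + 2) := by nlinarith
    have h10 : (ps.length : ℝ) ≤ N / 2 := by
      calc (ps.length : ℝ) ≤ _ := h9
        _ ≤ 1 / (8 * ((M : ℝ) + 2)) * (2 * (N * (M + 2)) + 2) := h8
        _ ≤ 1 / (8 * ((M : ℝ) + 2)) * (4 * (N * (M + 2))) := by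
          apply mul_le_mul_of_nonneg_left _ hε.le; linarith
        _ = N / 2 := by field_simp; ring
    have h11 : (M : ℝ) ^ 2 * (N / 2) ≤ L := by
      refine le_trans ?_ h7
      apply mul_le_mul_of_nonneg_left _ (by positivity)
      linarith
    refine lt_of_lt_of_le ?_ h11
    calc C * (2 * (N * (M + 2)) + 2) ≤ |C| * (2 * (N * (M + 2)) + 2) := by
          apply mul_le_mul_of_nonneg_right (le_abs_self C) (by positivity)
      _ ≤ |C| * (12 * (N * M)) := by
          apply mul_le_mul_of_nonneg_left _ (abs_nonneg C)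
          nlinarith
      _ = 24 * |C| * (N * M / 2) := by ring
      _ < M * (N * M / 2) := by
          apply mul_lt_mul_of_pos_right hMC
          positivity
      _ = (M : ℝ) ^ 2 * (N / 2) := by ring

end Pool.Agent.Results.MP_fe41f2_co.LinearlyManySteinerPoints
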